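import Pool.Agent.H8.Oc.Main

set_option autoImplicit false

namespace Pool.Agent.Results.MP_adc54a_gt.FiniteToOne

/-- `X` is orthocompact: every open cover has an open refinement (which is a cover) all of whose
subfamilies have open intersection. -/
def Orthocompact (X : Type*) [TopologicalSpace X] : Prop :=
  ∀ 𝒰 : Set (Set X), (∀ u ∈ 𝒰, IsOpen u) → ⋃₀ 𝒰 = Set.univ →
    ∃ 𝒱 : Set (Set X), (∀ v ∈ 𝒱, IsOpen v) ∧ ⋃₀ 𝒱 = Set.univ ∧
      (∀ v ∈ 𝒱, ∃ u ∈ 𝒰, v ⊆ u) ∧ (∀ 𝒲 ⊆ 𝒱, IsOpen (⋂₀ 𝒲))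

/-- `X` is countably metacompact: every countable open cover has a point-finite open refinement
(which is a cover). -/
def CountablyMetacompact (X : Type*) [TopologicalSpace X] : Prop :=
  ∀ O : ℕ → Set X, (∀ n, IsOpen (O n)) → (⋃ n, O n) = Set.univ →
    ∃ 𝒱 : Set (Set X), (∀ v ∈ 𝒱, IsOpen v) ∧ ⋃₀ 𝒱 = Set.univ ∧
      (∀ v ∈ 𝒱, ∃ n, v ⊆ O n) ∧ (∀ x, {v ∈ 𝒱 | x ∈ v}.Finite)

/-- A finite-to-one closed continuous surjection `f : X → Y` preserves orthocompactness as soon as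
either the cardinalities of the fibres are bounded, or `X` is countably metacompact. -/
theorem result {X Y : Type*} [TopologicalSpace X] [TopologicalSpace Y] (f : X → Y)
    (hcont : Continuous f) (hclosed : IsClosedMap f) (hsurj : Function.Surjective f)
    (hfin : ∀ y : Y, (f ⁻¹' {y}).Finite) (hX : Orthocompact X)
    (hcase : (∃ n : ℕ, ∀ y : Y, (f ⁻¹' {y}).ncard ≤ n) ∨ CountablyMetacompact X) :
    Orthocompact Y :=
  Pool.Agent.H8.Oc.main f hcont hclosed hsurj hfin hX hcase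

end Pool.Agent.Results.MP_adc54a_gt.FiniteToOne
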